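import Pool.Agent.R915.It.Irr
import Pool.Agent.R939.EI.Tw1

/-!
# The Tate conjecture at 2 for base changes by composites of unicritical polynomials
-/

set_option autoImplicit false

namespace Pool.Agent.R915.It

open Polynomial Pool.Agent.R939.EI Pool.Agent.TH115.GD

section norm

variable {k : Type} [Field k]

theorem even_of_nonsquare {D : k} (hD : ¬ IsSquare D) {U V : k[X]}
    (h : U ^ 2 - C D * V ^ 2 ≠ 0) : Even (U ^ 2 - C D * V ^ 2).natDegree := by
  set n := max U.natDegree V.natDegree with hn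
  have hU : U.natDegree ≤ n := le_max_left _ _
  have hV : V.natDegree ≤ n := le_max_right _ _
  have h1 : (U ^ 2).coeff (2 * n) = U.coeff n ^ 2 := coeff_pow_of_natDegree_le hU
  have h2 : (V ^ 2).coeff (2 * n) = V.coeff n ^ 2 := coeff_pow_of_natDegree_le hV
  have h3 : (U ^ 2 - C D * V ^ 2).coeff (2 * n) = U.coeff n ^ 2 - D * V.coeff n ^ 2 := by
    rw [coeff_sub, coeff_C_mul, h1, h2]
  have h4 : U.coeff n ^ 2 - D * V.coeff n ^ 2 ≠ 0 := by
    intro h0
    have hV0 : V.coeff n = 0 := by
      by_contra hne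
      apply hD
      refine ⟨U.coeff n / V.coeff n, ?_⟩
      field_simp
      linear_combination -h0
    rw [hV0] at h0
    have hU0 : U.coeff n = 0 := by
      have : U.coeff n ^ 2 = 0 := by linear_combination h0
      exact pow_eq_zero_iff (two_ne_zero) |>.1 this
    -- both leading coefficients vanish
    rcases le_total U.natDegree V.natDegree with hle | hle
    · have hnV : n = V.natDegree := max_eq_right hle
      rw [hnV, coeff_natDegree, leadingCoeff_eq_zero] at hV0
      rw [hV0, natDegree_zero] at hle hnV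
      rw [hnV] at hU0
      have hUC := eq_C_of_natDegree_eq_zero (Nat.le_zero.1 hle)
      rw [hU0, C_0] at hUC
      exact h (by rw [hUC, hV0]; ring)
    · have hnU : n = U.natDegree := max_eq_left hle
      rw [hnU, coeff_natDegree, leadingCoeff_eq_zero] at hU0
      rw [hU0, natDegree_zero] at hle hnU
      rw [hnU] at hV0
      have hVC := eq_C_of_natDegree_eq_zero (Nat.le_zero.1 hle)
      rw [hV0, C_0] at hVC
      exact h (by rw [hVC, hU0]; ring)
  have h5 : (U ^ 2 - C D * V ^ 2).natDegree ≤ 2 * n := by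
    refine (natDegree_sub_le _ _).trans (max_le ?_ ?_)
    · rw [natDegree_pow]
      exact Nat.mul_le_mul_left 2 hU
    · refine (natDegree_C_mul_le _ _).trans ?_
      rw [natDegree_pow]
      exact Nat.mul_le_mul_left 2 hV
  rw [natDegree_eq_of_le_of_coeff_ne_zero h5 (by rw [h3]; exact h4)]
  exact even_two_mul n

theorem notNorm_irr_odd {f : k[X]} (hf : Irreducible f) (ho : Odd f.natDegree) : NotNorm f := by
  intro u D U V e
  have hu : u ≠ 0 := by
    rintro rfl
    rw [C_0, zero_mul] at e
    exact hf.ne_zero e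
  have hd : f.natDegree = (U ^ 2 - C D * V ^ 2).natDegree := by
    rw [e, natDegree_C_mul hu]
  constructor
  · rintro rfl
    rw [hd, zero_pow two_ne_zero, mul_zero, sub_zero, natDegree_pow] at ho
    exact (Nat.not_odd_iff_even.2 (even_two_mul _)) ho
  · by_contra hD
    have h0 : U ^ 2 - C D * V ^ 2 ≠ 0 := by
      intro h0
      rw [h0, mul_zero] at e
      exact hf.ne_zero e
    rw [hd] at ho
    exact (Nat.not_odd_iff_even.2 (even_of_nonsquare hD h0)) ho

theorem onlyTrivial_irr {a b : k[X]} (hb : Irreducible b) : OnlyTrivial a b := by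
  intro A hA hs hd _
  obtain ⟨g, hg⟩ := hd
  rcases hb.isUnit_or_isUnit hg with h | h
  · exact Or.inl (hA.eq_one_of_isUnit h)
  · right
    obtain ⟨c, hc, hcw⟩ := Polynomial.isUnit_iff.1 h
    refine ⟨c, A, hc.ne_zero, ?_⟩
    rw [hg, ← hcw]
    ring

end norm

section main

variable {k k' K F : Type} [Field k] [Field k'] [Algebra k k'] [Field K] [Algebra k[X] K]
    [Field F] [Algebra k'[X] F] [IsFractionRing k'[X] F] [Algebra K F]

/-- The values at the elements of `S` of the monic prime factors of `f` are not `ℓ`-th powers, `ℓ` in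
`M`. -/
def NonResidue {k : Type} [Field k] (M : Set ℕ) (S : Set k) (f : k[X]) : Prop :=
  ∀ π : k[X], Irreducible π → π.Monic → π ∣ f → ∀ ℓ : ℕ, ℓ.Prime → ℓ ∈ M →
    ∀ w ∈ S, ∀ z : k, z ^ ℓ ≠ π.eval w

theorem inert_composite [PerfectField k] {f : k[X]} {M : Set ℕ} {S : Subring k}
    (hN : NonResidue M (S : Set k) f) {h : k[X]} (hh : IsComposite M (S : Set k) h) :
    Inert f h := by
  intro π hπ hdv
  have hl : π.leadingCoeff ≠ 0 := leadingCoeff_ne_zero.2 hπ.ne_zero
  set g := C π.leadingCoeff⁻¹ * π with hg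
  have hu : IsUnit (C π.leadingCoeff⁻¹ : k[X]) :=
    isUnit_C.2 (isUnit_iff_ne_zero.2 (inv_ne_zero hl))
  have hgm : g.Monic := by
    rw [hg, Monic, leadingCoeff_mul, leadingCoeff_C, inv_mul_cancel₀ hl]
  have hgi : Irreducible g := (irreducible_isUnit_mul hu).2 hπ
  have hgd : g ∣ f := ((isUnit_C.2 (isUnit_iff_ne_zero.2 (inv_ne_zero hl))).mul_left_dvd).2 hdv
  have key : Irreducible (g.comp h) := irr_composite hgm hgi (hN g hgi hgm hgd) hh
  have h3 : g.comp h = C π.leadingCoeff⁻¹ * π.comp h := by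
    rw [hg, mul_comp, C_comp]
  rw [h3] at key
  have h4 := (irreducible_isUnit_mul hu).1 key
  exact ⟨h4, PerfectField.separable_of_irreducible h4⟩

/-- The base changes by all composites. -/
theorem main [PerfectField k] (hT : IsTower k k' K F) (h2 : (2 : k) ≠ 0) {a b D : k[X]}
    (hNb : NotNorm b) (hNd : NotNorm (a ^ 2 - 4 * b)) (hO : OnlyTrivial a b)
    (hO' : OnlyTrivial (-2 * a) (a ^ 2 - 4 * b)) (hD : InertIn a b D) {M : Set ℕ} {S : Subring k}
    (hN : NonResidue M (S : Set k) (b * (a ^ 2 - 4 * b) * D)) {h : k[X]}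
    (hh : IsComposite M (S : Set k) h) {e : k} (he : e ≠ 0) :
    TateAtTwo (F := F) k' (crvT (algebraMap k[X] K ((C e * (a * D)).comp h))
      (algebraMap k[X] K ((C (e ^ 2) * (b * D ^ 2)).comp h))) := by
  have hb0 : b ≠ 0 := by
    rintro rfl
    exact (hNb 0 1 0 0 (by simp)).1 rfl
  have hd0 : a ^ 2 - 4 * b ≠ 0 := by
    intro h0
    exact (hNd 0 1 0 0 (by rw [h0]; simp)).1 rfl
  exact twist_main hT h2 hb0 hd0 hNb hNd hO hO' hD he hh.odd (inert_composite hN hh)

end main

section place

variable {k : Type} [Field k]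

/-- The test at one place: the monic prime factors of `f` have integral coefficients at `A`, and the
values of their reductions are not `ℓ`-th powers in the residue field. -/
def NonResidueAt (A : ValuationSubring k) (M : Set ℕ) (f : k[X]) : Prop :=
  ∀ π : k[X], Irreducible π → π.Monic → π ∣ f → ∃ g : A[X], g.map (algebraMap A k) = π ∧
    ∀ ℓ : ℕ, ℓ.Prime → ℓ ∈ M → ∀ w z : IsLocalRing.ResidueField A,
      z ^ ℓ ≠ (g.map (IsLocalRing.residue A)).eval w

theorem NonResidueAt.nonResidue {A : ValuationSubring k} {M : Set ℕ} {f : k[X]}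
    (h : NonResidueAt A M f) : NonResidue M (A.toSubring : Set k) f := by
  intro π hπ hm hdv ℓ hℓ hM w hw z hz
  obtain ⟨g, hg, hg'⟩ := h π hπ hm hdv
  have hw' : w ∈ A := hw
  let w' : A := ⟨w, hw'⟩
  have h1 : π.eval w = algebraMap A k (g.eval w') := by
    have h2 : w = algebraMap A k w' := rfl
    rw [← hg, h2, eval_map_algebraMap, aeval_algebraMap_apply]
    rfl
  have hzA : z ∈ A := by
    rw [← ValuationSubring.valuation_le_one_iff]
    have h3 : A.valuation (z ^ ℓ) ≤ 1 := by
      rw [ValuationSubring.valuation_le_one_iff, hz, h1]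
      exact (g.eval w').2
    rw [map_pow] at h3
    exact (pow_le_one_iff hℓ.ne_zero).1 h3
  let z' : A := ⟨z, hzA⟩
  have h4 : z' ^ ℓ = g.eval w' := by
    apply Subtype.ext
    have h5 : ((z' ^ ℓ : A) : k) = z ^ ℓ := rfl
    rw [h5, hz, h1]
    rfl
  apply hg' ℓ hℓ hM (IsLocalRing.residue A w') (IsLocalRing.residue A z')
  rw [← map_pow, h4, eval_map, eval₂_hom]

end place

end Pool.Agent.R915.It
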