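import Pool.Agent.R915.It.FinPow
import Pool.Agent.R915.It.Main
import Pool.Agent.R939.KM.Fin

/-!
# Finite fields: twists by primes, base changes by all composites
-/

set_option autoImplicit false
set_option linter.all false

namespace Pool.Agent.R915.It

open Polynomial Finset Pool.Agent.R939.EI Pool.Agent.R939.FF Pool.Agent.R939.KM Pool.Agent.TH115.GD

section count

variable {k : Type} [Field k] [Fintype k]

/-- irreducible polynomials modulo which `f` and `g` are not squares and whose values at the elements of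
`S` are not `ℓ`-th powers -/
theorem exists_manyS (hk : ringChar k ≠ 2) {ℓ : ℕ} (hℓ : ℓ.Prime) (hℓ2 : ℓ ≠ 2)
    (hℓk : ℓ ∣ Fintype.card k - 1) {f g : k[X]}
    (hf : ∀ (c : k) (h : k[X]), f ≠ C c * h ^ 2) (hg : ∀ (c : k) (h : k[X]), g ≠ C c * h ^ 2)
    (hfg : ∀ (c : k) (h : k[X]), f * g ≠ C c * h ^ 2) (S : Finset k) (n : ℕ) (hn : n ≠ 0) :
    ∃ T : Finset k[X], (∀ D ∈ T, D.Monic ∧ Irreducible D ∧ D.natDegree = n ∧
      (∀ r : k[X], ¬ D ∣ f - r ^ 2 ∧ ¬ D ∣ g - r ^ 2) ∧ NonResidue {ℓ} (S : Set k) D) ∧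
      (1 - (S.card : ℝ) / (ℓ : ℝ)) * (Fintype.card k : ℝ) ^ n ≤ 4 * (n * T.card) +
        ((12 + 10 * S.card) * (f.natDegree + g.natDegree : ℕ) + 4 * Fintype.card k + 4 * S.card) *
          (Real.sqrt (Fintype.card k)) ^ n := by
  classical
  obtain ⟨p, hp⟩ := CharP.exists k
  haveI : Fact (Nat.Prime p) := ⟨CharP.char_is_prime k p⟩
  haveI : NeZero n := ⟨hn⟩
  let E := FiniteField.Extension k p n
  letI : Fintype E := Fintype.ofFinite E
  haveI : FiniteDimensional k E := Module.Finite.of_finite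
  have hfr : Module.finrank k E = n := FiniteField.finrank_extension k p n
  have hcard : Fintype.card E = Fintype.card k ^ n := by
    rw [Module.card_eq_pow_finrank (K := k) (V := E), hfr]
  have hℓ0' : ℓ ≠ 0 := hℓ.ne_zero
  have hdeg : ∀ w : k, (C w - X ^ ℓ : k[X]).natDegree = ℓ := by
    intro w
    rw [natDegree_sub_eq_right_of_natDegree_lt, natDegree_X_pow]
    rw [natDegree_C, natDegree_X_pow]
    exact hℓ.pos
  have hodd : ∀ w : k, Odd (C w - X ^ ℓ : k[X]).natDegree := by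
    intro w
    rw [hdeg w]
    exact hℓ.odd_of_ne_two hℓ2
  set A : Finset E := Finset.univ.filter fun x : E => quadraticChar E (aeval x f) = -1 ∧
      quadraticChar E (aeval x g) = -1 with hA
  let B : k → Finset E := fun w => Finset.univ.filter fun x : E =>
      quadraticChar E (aeval x (f.comp (C w - X ^ ℓ))) = -1 ∧
      quadraticChar E (aeval x (g.comp (C w - X ^ ℓ))) = -1
  let P : k → Finset E := fun w => A.filter fun x => ∃ y : E, y ^ ℓ = algebraMap k E w - x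
  have h1 := card_nonsq (E := E) hk hf hg hfg
  rw [← hA] at h1
  have h2 : ∀ w : k, 4 * ((B w).card : ℝ) ≤ (Fintype.card E : ℝ) +
      10 * ((f.comp (C w - X ^ ℓ)).natDegree + (g.comp (C w - X ^ ℓ)).natDegree : ℕ) *
        Real.sqrt (Fintype.card E) := by
    intro w
    exact card_nonsq_le (E := E) hk (comp_ne_sq (hodd w) hf) (comp_ne_sq (hodd w) hg) (by
      intro c h
      rw [← mul_comp]
      exact comp_ne_sq (hodd w) hfg c h)
  have h3 : ∀ w : k, ℓ * (P w).card ≤ (B w).card + ℓ := by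
    intro w
    have h4 := card_powers (F := k) hℓ hℓk (A.image fun x => algebraMap k E w - x) (B w) (by
      intro y hy
      obtain ⟨x, hx, hxy⟩ := mem_image.1 hy
      have hx' : algebraMap k E w - y ^ ℓ = x := by rw [← hxy]; ring
      rw [hA, mem_filter] at hx
      rw [mem_filter]
      refine ⟨mem_univ _, ?_⟩
      rw [aeval_comp, aeval_comp, map_sub, aeval_C, map_pow, aeval_X, hx']
      exact hx.2)
    refine le_trans (Nat.mul_le_mul_left ℓ ?_) h4
    have h5 : (P w).card = ((P w).image fun x => algebraMap k E w - x).card := by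
      rw [card_image_of_injective]
      intro x y hxy
      exact sub_right_injective hxy
    rw [h5]
    refine card_le_card ?_
    intro u hu
    obtain ⟨x, hx, rfl⟩ := mem_image.1 hu
    obtain ⟨hx1, hx2⟩ := mem_filter.1 hx
    exact mem_filter.2 ⟨mem_image.2 ⟨x, hx1, rfl⟩, hx2⟩
  obtain ⟨T, hT, hc⟩ := to_polys (F := k) (A \ S.biUnion P) hn hfr
  have hsq : Real.sqrt (Fintype.card E) = (Real.sqrt (Fintype.card k)) ^ n := by
    rw [hcard]
    push_cast
    rw [Real.sqrt_eq_iff_mul_self_eq (by positivity) (by positivity), ← mul_pow,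
      Real.mul_self_sqrt (by positivity)]
  have hq1 : (1 : ℝ) ≤ Fintype.card k := by exact_mod_cast Fintype.card_pos
  have hsq1 : 1 ≤ Real.sqrt (Fintype.card k) := by
    rw [show (1 : ℝ) = Real.sqrt 1 by simp]
    exact Real.sqrt_le_sqrt hq1
  have h4 : ((Fintype.card k ^ (n / 2 + 1) : ℕ) : ℝ) ≤
      Fintype.card k * (Real.sqrt (Fintype.card k)) ^ n := by
    push_cast
    rw [pow_succ, mul_comm]
    refine mul_le_mul_of_nonneg_left ?_ (by positivity)
    have h5 : (Fintype.card k : ℝ) ^ (n / 2) = (Real.sqrt (Fintype.card k)) ^ (2 * (n / 2)) := by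
      rw [pow_mul, Real.sq_sqrt (by positivity)]
    rw [h5]
    exact pow_le_pow_right₀ hsq1 (Nat.mul_div_le n 2)
  refine ⟨T, ?_, ?_⟩
  · intro D hD
    obtain ⟨x, hx, rfl, hdeg⟩ := hT D hD
    have hint : IsIntegral k x := Algebra.IsIntegral.isIntegral x
    rw [mem_sdiff, mem_biUnion] at hx
    obtain ⟨hxA, e3⟩ := hx
    have hxA' := hxA
    rw [hA, mem_filter] at hxA'
    obtain ⟨-, e1, e2⟩ := hxA'
    have key : ∀ (w r : k[X]), quadraticChar E (aeval x w) = -1 → ¬ minpoly k x ∣ w - r ^ 2 := by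
      intro w r hw hdv
      have h5 : aeval x (w - r ^ 2) = 0 := (minpoly.dvd_iff).1 hdv
      rw [map_sub, map_pow, sub_eq_zero] at h5
      rw [h5] at hw
      by_cases h0 : aeval x r = 0
      · rw [h0, zero_pow two_ne_zero, MulChar.map_zero] at hw
        norm_num at hw
      · rw [quadraticChar_sq_one' h0] at hw
        norm_num at hw
    refine ⟨minpoly.monic hint, minpoly.irreducible hint, hdeg,
      fun r => ⟨key f r e1, key g r e2⟩, ?_⟩
    intro π hπ hm hdv ℓ' hℓ' hℓM w hw z hz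
    have hℓe : ℓ' = ℓ := hℓM
    subst hℓe
    have has : π = minpoly k x := eq_of_monic_of_associated hm (minpoly.monic hint)
      (hπ.associated_of_dvd (minpoly.irreducible hint) hdv)
    rw [has] at hz
    obtain ⟨y, hy⟩ := pow_of_eval (k := k) (E := E) hℓ.pos
      (by rw [Nat.card_eq_fintype_card]; exact hℓk) x hz
    exact e3 ⟨w, hw, mem_filter.2 ⟨hxA, y, hy⟩⟩
  · have hℓ0 : (0 : ℝ) < ℓ := by exact_mod_cast hℓ.pos
    set Q : ℝ := (Real.sqrt (Fintype.card k)) ^ n with hQ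
    have hQ1 : 1 ≤ Q := one_le_pow₀ hsq1
    set s : ℝ := (S.card : ℝ) with hs
    have hs0 : 0 ≤ s := Nat.cast_nonneg _
    rw [hsq, hcard] at h1
    push_cast at h1
    set N : ℝ := (Fintype.card k : ℝ) ^ n with hN
    set d : ℝ := ((f.natDegree + g.natDegree : ℕ) : ℝ) with hd
    have hd0 : 0 ≤ d := Nat.cast_nonneg _
    have hPw : ∀ w : k, ((P w).card : ℝ) ≤ N / (4 * ℓ) + 10 / 4 * d * Q + 1 := by
      intro w
      have h5 := h2 w
      rw [natDegree_comp, natDegree_comp, hdeg w, hsq, hcard] at h5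
      push_cast at h5
      have h6 : (ℓ : ℝ) * (P w).card ≤ (B w).card + ℓ := by exact_mod_cast h3 w
      have h7 : 4 * ((B w).card : ℝ) ≤ N + 10 * (d * ℓ) * Q := by
        have e : (f.natDegree : ℝ) * ℓ + g.natDegree * ℓ = d * ℓ := by
          rw [hd]; push_cast; ring
        rw [e] at h5
        exact h5
      have h8 : ((P w).card : ℝ) * ℓ ≤ (N / (4 * ℓ) + 10 / 4 * d * Q + 1) * ℓ := by
        have e : (N / (4 * ℓ) + 10 / 4 * d * Q + 1) * ℓ = (N + 10 * (d * ℓ) * Q) / 4 + ℓ := by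
          field_simp
        rw [e]
        linarith
      exact le_of_mul_le_mul_right h8 hℓ0
    have hPsum : ((S.biUnion P).card : ℝ) ≤ s * (N / (4 * ℓ) + 10 / 4 * d * Q + 1) := by
      have h5 : ((S.biUnion P).card : ℝ) ≤ ∑ w ∈ S, ((P w).card : ℝ) := by
        exact_mod_cast card_biUnion_le (s := S) (t := P)
      refine h5.trans ?_
      refine (sum_le_sum fun w _ => hPw w).trans ?_
      rw [sum_const, nsmul_eq_mul]
    have h5 : A.card ≤ (A \ S.biUnion P).card + (S.biUnion P).card := by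
      have := Finset.le_card_sdiff (S.biUnion P) A
      omega
    have h6 : (A.card : ℝ) ≤ (A \ S.biUnion P).card + (S.biUnion P).card := by exact_mod_cast h5
    have h9 : ((A \ S.biUnion P).card : ℝ) ≤ n * T.card + Fintype.card k * Q := by
      have h10 : ((A \ S.biUnion P).card : ℝ) ≤
          n * T.card + ((Fintype.card k ^ (n / 2 + 1) : ℕ) : ℝ) := by
        exact_mod_cast hc
      linarith
    have h11 : N ≤ 4 * (A.card : ℝ) + 12 * d * Q := by
      rw [hd]
      push_cast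
      exact h1
    have e2 : (1 - s / (ℓ : ℝ)) * N = N - 4 * s * (N / (4 * ℓ)) := by
      field_simp
    have h12 : s ≤ s * Q := by nlinarith
    rw [e2]
    nlinarith

/-- the asymptotic form -/
theorem exists_quarterS (hk : ringChar k ≠ 2) {ℓ : ℕ} (hℓ : ℓ.Prime) (hℓ2 : ℓ ≠ 2)
    (hℓk : ℓ ∣ Fintype.card k - 1) {f g : k[X]}
    (hf : ∀ (c : k) (h : k[X]), f ≠ C c * h ^ 2) (hg : ∀ (c : k) (h : k[X]), g ≠ C c * h ^ 2)
    (hfg : ∀ (c : k) (h : k[X]), f * g ≠ C c * h ^ 2) (S : Finset k) {η : ℝ} (hη : 0 < η) :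
    ∃ n0 : ℕ, ∀ n : ℕ, n0 ≤ n → ∃ T : Finset k[X], (∀ D ∈ T, D.Monic ∧ Irreducible D ∧
      D.natDegree = n ∧ (∀ r : k[X], ¬ D ∣ f - r ^ 2 ∧ ¬ D ∣ g - r ^ 2) ∧
        NonResidue {ℓ} (S : Set k) D) ∧
      (1 / 4 * (1 - (S.card : ℝ) / (ℓ : ℝ)) - η) * (Fintype.card k : ℝ) ^ n ≤ n * T.card := by
  set c0 : ℝ := (12 + 10 * S.card) * (f.natDegree + g.natDegree : ℕ) + 4 * Fintype.card k +
    4 * S.card with hc0
  set A : ℝ := c0 / (4 * η) with hA
  obtain ⟨N, hN⟩ := exists_nat_ge A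
  refine ⟨max 4 N, fun n hn => ?_⟩
  have hn4 : 4 ≤ n := (le_max_left _ _).trans hn
  have hnN : N ≤ n := (le_max_right _ _).trans hn
  obtain ⟨T, hT, hc⟩ := exists_manyS hk hℓ hℓ2 hℓk hf hg hfg S n (by omega)
  refine ⟨T, hT, ?_⟩
  rw [← hc0] at hc
  set Q : ℝ := (Real.sqrt (Fintype.card k)) ^ n with hQ
  have hq2 : (2 : ℝ) ≤ Fintype.card k := by exact_mod_cast Fintype.one_lt_card
  have hQQ : (Fintype.card k : ℝ) ^ n = Q * Q := by
    rw [hQ, ← mul_pow, Real.mul_self_sqrt (by positivity)]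
  have hQ0 : 0 ≤ Q := by positivity
  have hQn : (n : ℝ) ≤ Q := by
    have h1 : (n : ℝ) * n ≤ Q * Q := by
      rw [← hQQ]
      have h2 : n ^ 2 ≤ 2 ^ n := sq_le_pow n hn4
      have h3 : (n : ℝ) ^ 2 ≤ 2 ^ n := by exact_mod_cast h2
      calc (n : ℝ) * n = n ^ 2 := by ring
        _ ≤ 2 ^ n := h3
        _ ≤ (Fintype.card k : ℝ) ^ n := pow_le_pow_left₀ (by norm_num) hq2 n
    nlinarith
  have hAQ : c0 ≤ 4 * η * Q := by
    have h1 : A ≤ Q := hN.trans ((by exact_mod_cast hnN : (N : ℝ) ≤ n).trans hQn)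
    rw [hA, div_le_iff₀ (by positivity)] at h1
    linarith
  have h5 : c0 * Q ≤ 4 * η * Q * Q := mul_le_mul_of_nonneg_right hAQ hQ0
  rw [hQQ] at hc ⊢
  nlinarith

end count

section main

variable {k k' K F : Type} [Field k] [Field k'] [Algebra k k'] [Field K] [Algebra k[X] K]
    [Field F] [Algebra k'[X] F] [IsFractionRing k'[X] F] [Algebra K F]

theorem NonResidue.mul {M : Set ℕ} {S : Set k} {f g : k[X]} (hf : NonResidue M S f)
    (hg : NonResidue M S g) : NonResidue M S (f * g) := by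
  intro π hπ hm hdv
  rcases hπ.prime.dvd_or_dvd hdv with h | h
  · exact hf π hπ hm h
  · exact hg π hπ hm h

/-- **Twists by primes, base changes by all composites.** -/
theorem prime_twists [Fintype k] (hT : IsTower k k' K F) (hk : ringChar k ≠ 2) {a b : k[X]}
    (hNb : NotNorm b) (hNd : NotNorm (a ^ 2 - 4 * b))
    (hbd : ∀ (c : k) (g : k[X]), b * (a ^ 2 - 4 * b) ≠ C c * g ^ 2)
    (hO : OnlyTrivial a b) (hO' : OnlyTrivial (-2 * a) (a ^ 2 - 4 * b))
    {ℓ : ℕ} (hℓ : ℓ.Prime) (hℓ2 : ℓ ≠ 2) (hℓk : ℓ ∣ Fintype.card k - 1) (S : Subring k)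
    (hN : NonResidue {ℓ} (S : Set k) (b * (a ^ 2 - 4 * b))) {η : ℝ} (hη : 0 < η) :
    ∃ n0 : ℕ, ∀ n : ℕ, n0 ≤ n → ∃ T : Finset k[X],
      (∀ D ∈ T, D.Monic ∧ Irreducible D ∧ D.natDegree = n ∧
        ∀ h : k[X], IsComposite {ℓ} (S : Set k) h → ∀ e : k, e ≠ 0 →
          TateAtTwo (F := F) k' (crvT (algebraMap k[X] K ((C e * (a * D)).comp h))
            (algebraMap k[X] K ((C (e ^ 2) * (b * D ^ 2)).comp h)))) ∧
      (1 / 4 * (1 - (Nat.card S : ℝ) / (ℓ : ℝ)) - η) * (Fintype.card k : ℝ) ^ n ≤ n * T.card := by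
  classical
  have h2 : (2 : k) ≠ 0 := Ring.two_ne_zero hk
  set Sf : Finset k := (Set.toFinite (S : Set k)).toFinset with hSf
  have hSc : (Sf.card : ℝ) = (Nat.card S : ℝ) := by
    have h : Nat.card S = Sf.card := by
      rw [hSf, ← Set.ncard_eq_toFinset_card _ (Set.toFinite (S : Set k))]
      exact Nat.card_coe_set_eq (S : Set k)
    rw [h]
  obtain ⟨n0, hn⟩ := exists_quarterS hk hℓ hℓ2 hℓk (Pool.Agent.R939.FF.ne_sq_of_notNorm hNb)
    (Pool.Agent.R939.FF.ne_sq_of_notNorm hNd) hbd Sf hη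
  refine ⟨n0, fun n hnn => ?_⟩
  obtain ⟨T, hT', hc⟩ := hn n hnn
  rw [hSc] at hc
  refine ⟨T, fun D hD => ?_, hc⟩
  obtain ⟨h3, h4, h5, h6, h7⟩ := hT' D hD
  refine ⟨h3, h4, h5, ?_⟩
  intro h hh e he
  have h7' : NonResidue {ℓ} (S : Set k) D := by
    have e1 : (Sf : Set k) = (S : Set k) := Set.Finite.coe_toFinset _
    rwa [e1] at h7
  refine main hT h2 hNb hNd hO hO' ⟨h4.ne_zero, ?_⟩ (hN.mul h7') hh he
  intro π hπ hdv r
  have has : Associated π D := (hπ.associated_of_dvd h4 hdv)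
  exact ⟨fun h8 => (h6 r).1 (has.symm.dvd.trans h8), fun h8 => (h6 r).2 (has.symm.dvd.trans h8)⟩

end main

end Pool.Agent.R915.It
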