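import Pool.Agent.R915.It.Main

/-!
# An example over the rational numbers
-/

set_option autoImplicit false

namespace Pool.Agent.R915.It

open Polynomial Pool.Agent.R939.EI Pool.Agent.TH115.GD

instance fact7 : Fact (Nat.Prime 7) := ⟨by norm_num⟩

/-- The rational numbers whose denominator is not divisible by `7`. -/
noncomputable def S7 : Subring ℚ := (PadicInt.subring 7).comap (Rat.castHom ℚ_[7])

theorem mem_S7 (w : ℚ) : w ∈ S7 ↔ ‖(w : ℚ_[7])‖ ≤ 1 := Iff.rfl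

theorem to_zmod (w : ℚ) (hw : w ∈ S7) (z : ℚ) (t : ℕ) (h : z ^ 3 = w ^ 3 + t) :
    ∃ Z W : ZMod 7, Z ^ 3 = W ^ 3 + t := by
  have hw' : ‖(w : ℚ_[7])‖ ≤ 1 := hw
  have h1 : (z : ℚ_[7]) ^ 3 = (w : ℚ_[7]) ^ 3 + t := by
    have := congrArg (fun x : ℚ => (x : ℚ_[7])) h
    push_cast at this
    exact this
  let W : ℤ_[7] := ⟨(w : ℚ_[7]), hw'⟩
  have h2 : (z : ℚ_[7]) ^ 3 = ((W ^ 3 + (t : ℤ_[7]) : ℤ_[7]) : ℚ_[7]) := by
    rw [h1]
    push_cast
    rfl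
  have hz : ‖(z : ℚ_[7])‖ ≤ 1 := by
    have h3 : ‖(z : ℚ_[7])‖ ^ 3 ≤ 1 := by
      rw [← norm_pow, h2]
      exact PadicInt.norm_le_one _
    by_contra hcon
    rw [not_le] at hcon
    exact absurd h3 (not_le.2 (one_lt_pow₀ hcon (by norm_num)))
  let Z : ℤ_[7] := ⟨(z : ℚ_[7]), hz⟩
  have h4 : Z ^ 3 = W ^ 3 + (t : ℤ_[7]) := by
    apply Subtype.ext
    rw [← h2]
    rfl
  refine ⟨PadicInt.toZMod Z, PadicInt.toZMod W, ?_⟩
  rw [← map_pow, h4, map_add, map_pow, map_natCast]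

theorem seven4 (w : ℚ) (hw : w ∈ S7) (z : ℚ) : z ^ 3 ≠ w ^ 3 + 4 := by
  intro h
  obtain ⟨Z, W, hZW⟩ := to_zmod w hw z 4 (by rw [h]; norm_num)
  revert hZW
  revert Z W
  decide

theorem seven3 (w : ℚ) (hw : w ∈ S7) (z : ℚ) : z ^ 3 ≠ w ^ 3 + 3 := by
  intro h
  obtain ⟨Z, W, hZW⟩ := to_zmod w hw z 3 (by rw [h]; norm_num)
  revert hZW
  revert Z W
  decide

section gen

variable {k : Type} [Field k]

theorem irr_cubic {c : k} (h : ∀ z : k, z ^ 3 ≠ c) : Irreducible (X ^ 3 + C c : k[X]) := by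
  have h1 := irr_step (k := k) monic_X irreducible_X (m := 3) (by decide) c (by
    intro ℓ hℓ hd z
    rw [eval_X]
    have : ℓ = 3 := (Nat.prime_dvd_prime_iff_eq hℓ (by norm_num)).1 hd
    subst this
    exact h z)
  rwa [X_comp] at h1

theorem disc_eq : (C 2 : k[X]) ^ 2 - 4 * (X ^ 3 + C 4) = C (-4) * (X ^ 3 + C 3) := by
  have h4 : (C 4 : k[X]) = 4 := map_ofNat C 4
  have h3 : (C 3 : k[X]) = 3 := map_ofNat C 3
  have h2 : (C 2 : k[X]) = 2 := map_ofNat C 2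
  rw [C_neg, h4, h3, h2]
  ring

theorem nonres {S : Subring k} (hk : (2 : k) ≠ 0) (s4 : ∀ w ∈ S, ∀ z : k, z ^ 3 ≠ w ^ 3 + 4)
    (s3 : ∀ w ∈ S, ∀ z : k, z ^ 3 ≠ w ^ 3 + 3) : NonResidue {3} (S : Set k)
    ((X ^ 3 + C 4 : k[X]) * ((C 2 : k[X]) ^ 2 - 4 * (X ^ 3 + C 4)) * 1) := by
  have irr4 : Irreducible (X ^ 3 + C 4 : k[X]) :=
    irr_cubic fun z hz => s4 0 (S.zero_mem) z (by rw [hz]; ring)
  have irr3 : Irreducible (X ^ 3 + C 3 : k[X]) :=
    irr_cubic fun z hz => s3 0 (S.zero_mem) z (by rw [hz]; ring)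
  have hm4 : (-4 : k) ≠ 0 := by
    have : (-4 : k) = -(2 * 2) := by norm_num
    rw [this]
    exact neg_ne_zero.2 (mul_ne_zero hk hk)
  intro π hπ hm hdv ℓ hℓ hM w hw z
  have hM' : ℓ = 3 := hM
  subst hM'
  rw [disc_eq, mul_one] at hdv
  have m4 : (X ^ 3 + C 4 : k[X]).Monic := monic_X_pow_add_C 4 (by norm_num)
  have m3 : (X ^ 3 + C 3 : k[X]).Monic := monic_X_pow_add_C 3 (by norm_num)
  rcases hπ.prime.dvd_or_dvd hdv with h | h
  · have : π = X ^ 3 + C 4 := eq_of_monic_of_associated hm m4 (hπ.associated_of_dvd irr4 h)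
    rw [this, eval_add, eval_pow, eval_X, eval_C]
    exact s4 w hw z
  · have h' : π ∣ X ^ 3 + C 3 := by
      rcases hπ.prime.dvd_or_dvd h with h | h
      · exact absurd (isUnit_of_dvd_unit h (isUnit_C.2 (isUnit_iff_ne_zero.2 hm4)))
          hπ.not_isUnit
      · exact h
    have : π = X ^ 3 + C 3 := eq_of_monic_of_associated hm m3 (hπ.associated_of_dvd irr3 h')
    rw [this, eval_add, eval_pow, eval_X, eval_C]
    exact s3 w hw z

variable {k' K F : Type} [Field k'] [Algebra k k'] [Field K] [Algebra k[X] K]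
    [Field F] [Algebra k'[X] F] [IsFractionRing k'[X] F] [Algebra K F]

theorem example_gen [PerfectField k] {S : Subring k} (hk : (2 : k) ≠ 0)
    (s4 : ∀ w ∈ S, ∀ z : k, z ^ 3 ≠ w ^ 3 + 4) (s3 : ∀ w ∈ S, ∀ z : k, z ^ 3 ≠ w ^ 3 + 3)
    (hT : IsTower k k' K F) {h : k[X]} (hh : IsComposite {3} (S : Set k) h) {e : k} (he : e ≠ 0) :
    TateAtTwo (F := F) k' (crvT (algebraMap k[X] K (C (2 * e)))
      (algebraMap k[X] K (C (e ^ 2) * (h ^ 3 + 4)))) := by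
  have irr4 : Irreducible (X ^ 3 + C 4 : k[X]) :=
    irr_cubic fun z hz => s4 0 (S.zero_mem) z (by rw [hz]; ring)
  have irr3 : Irreducible (X ^ 3 + C 3 : k[X]) :=
    irr_cubic fun z hz => s3 0 (S.zero_mem) z (by rw [hz]; ring)
  have hm4 : (-4 : k) ≠ 0 := by
    have : (-4 : k) = -(2 * 2) := by norm_num
    rw [this]
    exact neg_ne_zero.2 (mul_ne_zero hk hk)
  have irrd : Irreducible ((C 2 : k[X]) ^ 2 - 4 * (X ^ 3 + C 4)) := by
    rw [disc_eq]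
    exact (irreducible_isUnit_mul (isUnit_C.2 (isUnit_iff_ne_zero.2 hm4))).2 irr3
  have n4 : (X ^ 3 + C 4 : k[X]).natDegree = 3 := natDegree_X_pow_add_C
  have n3 : (X ^ 3 + C 3 : k[X]).natDegree = 3 := natDegree_X_pow_add_C
  have h1 := main (F := F) hT hk (a := C 2) (b := X ^ 3 + C 4) (D := 1)
    (notNorm_irr_odd irr4 (by rw [n4]; decide))
    (notNorm_irr_odd irrd (by
      rw [disc_eq, natDegree_C_mul hm4, n3]; decide))
    (onlyTrivial_irr irr4) (onlyTrivial_irr irrd)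
    ⟨one_ne_zero, fun π hπ hdv => absurd (isUnit_of_dvd_one hdv) hπ.not_isUnit⟩
    (M := {3}) (S := S) (nonres hk s4 s3) (h := h) hh he
  have e1 : (C e * (C 2 * 1) : k[X]).comp h = C (2 * e) := by
    rw [mul_one, mul_comp, C_comp, C_comp, ← C_mul, mul_comm]
  have e2 : (C (e ^ 2) * ((X ^ 3 + C 4) * 1 ^ 2) : k[X]).comp h = C (e ^ 2) * (h ^ 3 + 4) := by
    have h4 : (C 4 : k[X]) = 4 := map_ofNat C 4
    rw [one_pow, mul_one, mul_comp, C_comp, add_comp, pow_comp, X_comp, C_comp, h4]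
  rw [e1, e2] at h1
  exact h1

end gen

theorem example7 {k' K F : Type} [Field k'] [Algebra ℚ k'] [Field K] [Algebra ℚ[X] K]
    [Field F] [Algebra k'[X] F] [IsFractionRing k'[X] F] [Algebra K F] (hT : IsTower ℚ k' K F)
    {h : ℚ[X]} (hh : IsComposite {3} {c : ℚ | ‖(c : ℚ_[7])‖ ≤ 1} h) {e : ℚ} (he : e ≠ 0) :
    TateAtTwo (F := F) k' (crvT (algebraMap ℚ[X] K (C (2 * e)))
      (algebraMap ℚ[X] K (C (e ^ 2) * (h ^ 3 + 4)))) :=
  example_gen (S := S7) two_ne_zero seven4 seven3 hT hh he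

theorem example7F {k' K F : Type} [Field k'] [Algebra (ZMod 7) k'] [Field K]
    [Algebra (ZMod 7)[X] K] [Field F] [Algebra k'[X] F] [IsFractionRing k'[X] F] [Algebra K F]
    (hT : IsTower (ZMod 7) k' K F)
    {h : (ZMod 7)[X]} (hh : IsComposite {3} Set.univ h) {e : ZMod 7} (he : e ≠ 0) :
    TateAtTwo (F := F) k' (crvT (algebraMap (ZMod 7)[X] K (C (2 * e)))
      (algebraMap (ZMod 7)[X] K (C (e ^ 2) * (h ^ 3 + 4)))) := by
  have s4 : ∀ w z : ZMod 7, z ^ 3 ≠ w ^ 3 + 4 := by decide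
  have s3 : ∀ w z : ZMod 7, z ^ 3 ≠ w ^ 3 + 3 := by decide
  refine example_gen (S := (⊤ : Subring (ZMod 7))) (by decide) (fun w _ z => s4 w z)
    (fun w _ z => s3 w z) hT ?_ he
  rwa [Subring.coe_top]

end Pool.Agent.R915.It
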