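import Pool.Agent.R915.It.Irr

/-!
# Finite fields: elements whose norm is an `ℓ`-th power
-/

set_option autoImplicit false

namespace Pool.Agent.R915.It

open Polynomial IntermediateField

/-- An element of a cyclic group of order `N`, killed by `N / ℓ`, is an `ℓ`-th power. -/
theorem pow_of_pow_eq_one {G : Type} [CommGroup G] [Finite G] [IsCyclic G] {ℓ : ℕ} (hℓ : 0 < ℓ)
    (hd : ℓ ∣ Nat.card G) {u : G} (h : u ^ (Nat.card G / ℓ) = 1) : ∃ y : G, y ^ ℓ = u := by
  obtain ⟨g, hg⟩ := IsCyclic.exists_generator (α := G)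
  have hord : orderOf g = Nat.card G := orderOf_eq_card_of_forall_mem_zpowers hg
  obtain ⟨j, hj⟩ := mem_powers_iff_mem_zpowers.2 (hg u)
  obtain ⟨t, ht⟩ := hd
  have ht0 : 0 < t := by
    rcases Nat.eq_zero_or_pos t with h0 | h0
    · rw [h0, mul_zero] at ht
      exact absurd ht Nat.card_pos.ne'
    · exact h0
  have h1 : Nat.card G / ℓ = t := by rw [ht, Nat.mul_div_cancel_left _ hℓ]
  rw [h1, ← hj] at h
  simp only [] at h
  rw [← pow_mul] at h
  have h2 : Nat.card G ∣ j * t := by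
    rw [← hord]
    exact orderOf_dvd_of_pow_eq_one h
  rw [ht] at h2
  have h3 : ℓ ∣ j := Nat.dvd_of_mul_dvd_mul_right ht0 h2
  obtain ⟨s, hs⟩ := h3
  refine ⟨g ^ s, ?_⟩
  rw [← pow_mul, mul_comm, ← hs]
  exact hj

theorem pow_of_norm {k L : Type} [Field k] [Finite k] [Field L] [Finite L] [Algebra k L] {ℓ : ℕ}
    (hℓ : 0 < ℓ) (hd : ℓ ∣ Nat.card k - 1) {u : L} {z : k} (h : Algebra.norm k u = z ^ ℓ) :
    ∃ y : L, y ^ ℓ = u := by
  by_cases hu : u = 0
  · exact ⟨0, by rw [hu, zero_pow hℓ.ne']⟩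
  have hz : z ≠ 0 := by
    rintro rfl
    rw [zero_pow hℓ.ne', Algebra.norm_eq_zero_iff] at h
    exact hu h
  have h1 := FiniteField.algebraMap_norm_eq_pow (K := k) (K' := L) (x := u)
  obtain ⟨t, ht⟩ := hd
  have hcard : Nat.card k - 1 ∣ Nat.card L - 1 := by
    haveI : FiniteDimensional k L := Module.Finite.of_finite
    have h2 : Nat.card L = Nat.card k ^ Module.finrank k L := Module.natCard_eq_pow_finrank
    rw [h2]
    have := Nat.sub_dvd_pow_sub_pow (Nat.card k) 1 (Module.finrank k L)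
    rwa [one_pow] at this
  obtain ⟨r, hr⟩ := hcard
  have hk1 : 0 < Nat.card k - 1 := by
    have := Finite.one_lt_card (α := k)
    omega
  have hL1 : 0 < Nat.card L - 1 := by
    have := Finite.one_lt_card (α := L)
    omega
  have h3 : (Nat.card L - 1) / (Nat.card k - 1) = r := by
    rw [hr, Nat.mul_div_cancel_left _ hk1]
  rw [h3] at h1
  have h4 : z ^ (Nat.card k - 1) = 1 := by
    letI : Fintype k := Fintype.ofFinite k
    rw [Nat.card_eq_fintype_card]
    exact FiniteField.pow_card_sub_one_eq_one z hz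
  have h5 : u ^ (r * t) = 1 := by
    rw [pow_mul, ← h1, h, ← map_pow, ← pow_mul, ← ht, h4, map_one]
  haveI : IsCyclic Lˣ := inferInstance
  have hcL : Nat.card Lˣ = Nat.card L - 1 := by
    letI : Fintype L := Fintype.ofFinite L
    classical
    rw [Nat.card_eq_fintype_card, Fintype.card_units, Nat.card_eq_fintype_card]
  have h6 : Nat.card Lˣ / ℓ = r * t := by
    rw [hcL, hr, ht, show ℓ * t * r = ℓ * (r * t) by ring, Nat.mul_div_cancel_left _ hℓ]
  obtain ⟨y, hy⟩ := pow_of_pow_eq_one (G := Lˣ) hℓ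
    (by rw [hcL, hr, ht]; exact ⟨t * r, by ring⟩) (u := Units.mk0 u hu) (by
      rw [h6]
      apply Units.ext
      rw [Units.val_pow_eq_pow_val, Units.val_mk0, h5, Units.val_one])
  refine ⟨(y : L), ?_⟩
  rw [← Units.val_pow_eq_pow_val, hy, Units.val_mk0]

/-- If the value of the minimal polynomial of `x` at `w` is an `ℓ`-th power, so is `w - x`. -/
theorem pow_of_eval {k E : Type} [Field k] [Finite k] [Field E] [Finite E] [Algebra k E] {ℓ : ℕ}
    (hℓ : 0 < ℓ) (hd : ℓ ∣ Nat.card k - 1) (x : E) {w z : k} (h : z ^ ℓ = (minpoly k x).eval w) :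
    ∃ y : E, y ^ ℓ = algebraMap k E w - x := by
  haveI : FiniteDimensional k E := Module.Finite.of_finite
  have hint : IsIntegral k x := Algebra.IsIntegral.isIntegral x
  haveI : Finite k⟮x⟯ := Finite.of_injective (algebraMap k⟮x⟯ E) (algebraMap k⟮x⟯ E).injective
  have h1 := norm_sub x hint w
  rw [← h] at h1
  obtain ⟨y, hy⟩ := pow_of_norm hℓ hd h1
  refine ⟨(y : E), ?_⟩
  have h2 := congrArg (algebraMap k⟮x⟯ E) hy
  rw [map_pow, map_sub] at h2
  exact h2

end Pool.Agent.R915.It
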