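import Mathlib

/-!
# Composites of the polynomials `X ^ m + c`: irreducibility

If `f` is monic and irreducible over `k`, `m` is odd and `f(c)` is not an `ℓ`-th power in `k` for the
primes `ℓ` dividing `m`, then `f(X ^ m + c)` is irreducible: for a root `x` of `f` the norm of `c - x`
is `f(c)`, so `x - c` is not an `ℓ`-th power in `k(x)`.
-/

set_option autoImplicit false

namespace Pool.Agent.R915.It

open Polynomial IntermediateField

section step

variable {k : Type} [Field k]

theorem norm_sub {E : Type} [Field E] [Algebra k E] (x : E) (hx : IsIntegral k x) (c : k) :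
    Algebra.norm k (algebraMap k k⟮x⟯ c - AdjoinSimple.gen k x) = (minpoly k x).eval c := by
  classical
  let pb := adjoin.powerBasis hx
  have hgen : pb.gen = AdjoinSimple.gen k x := adjoin.powerBasis_gen hx
  have hmin : minpoly k pb.gen = minpoly k x := by
    rw [hgen]
    exact minpoly_gen k x
  have h1 := charpoly_leftMulMatrix pb
  rw [hmin, hgen] at h1
  rw [Algebra.norm_eq_matrix_det pb.basis, map_sub, AlgHom.commutes, ← h1, Matrix.eval_charpoly]
  rfl

/-- One step. -/
theorem irr_step {f : k[X]} (hfm : f.Monic) (hfi : Irreducible f) {m : ℕ} (hm : Odd m) (c : k)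
    (h : ∀ ℓ : ℕ, ℓ.Prime → ℓ ∣ m → ∀ z : k, z ^ ℓ ≠ f.eval c) :
    Irreducible (f.comp (X ^ m + C c)) := by
  have hm0 : m ≠ 0 := by
    rintro rfl
    exact absurd hm (by decide)
  refine irreducible_comp hfm (monic_X_pow_add_C c hm0) hfi ?_
  intro E _ _ x hx
  have hint : IsIntegral k x := by
    by_contra hcon
    have h0 := minpoly.eq_zero hcon
    rw [hx] at h0
    exact hfi.ne_zero h0
  have e : (X ^ m + C c : k[X]).map (algebraMap k k⟮x⟯) - C (AdjoinSimple.gen k x) =
      X ^ m - C (AdjoinSimple.gen k x - algebraMap k k⟮x⟯ c) := by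
    rw [Polynomial.map_add, Polynomial.map_pow, map_X, map_C, C_sub]
    ring
  rw [e]
  refine X_pow_sub_C_irreducible_of_odd hm ?_
  intro ℓ hℓ hℓm b hb
  have hℓo : Odd ℓ := Odd.of_dvd_nat hm hℓm
  apply h ℓ hℓ hℓm (Algebra.norm k (-b))
  rw [← map_pow, hℓo.neg_pow, hb, neg_sub, norm_sub x hint c, hx]

end step

/-- The composites of the polynomials `X ^ m + c`, where `c` is in `S`, `m` is odd and all prime factors
of `m` are in `M`. -/
inductive IsComposite {k : Type} [Field k] (M : Set ℕ) (S : Set k) : k[X] → Prop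
  | id : IsComposite M S X
  | comp {h : k[X]} {m : ℕ} {c : k} : IsComposite M S h → Odd m → (∀ ℓ : ℕ, ℓ.Prime → ℓ ∣ m → ℓ ∈ M) →
      c ∈ S → IsComposite M S (h.comp (X ^ m + C c))

section comp

variable {k : Type} [Field k] {M : Set ℕ}

theorem IsComposite.monic {S : Set k} {h : k[X]} (hh : IsComposite M S h) :
    h.Monic ∧ h.natDegree ≠ 0 := by
  induction hh with
  | id => exact ⟨monic_X, by rw [natDegree_X]; exact one_ne_zero⟩
  | @comp h m c _ hm _ _ ih =>
    have hm0 : m ≠ 0 := by
      rintro rfl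
      exact absurd hm (by decide)
    have hd : (X ^ m + C c : k[X]).natDegree = m := natDegree_X_pow_add_C
    refine ⟨ih.1.comp (monic_X_pow_add_C c hm0) (by rw [hd]; exact hm0), ?_⟩
    rw [natDegree_comp, hd]
    exact mul_ne_zero ih.2 hm0

theorem IsComposite.odd {S : Set k} {h : k[X]} (hh : IsComposite M S h) : Odd h.natDegree := by
  induction hh with
  | id => rw [natDegree_X]; exact odd_one
  | @comp h m c _ hm _ _ ih =>
    have hd : (X ^ m + C c : k[X]).natDegree = m := natDegree_X_pow_add_C
    rw [natDegree_comp, hd]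
    exact ih.mul hm

/-- the composites map `S` to `S` if `S` is a subring -/
theorem IsComposite.maps {S : Subring k} {h : k[X]} (hh : IsComposite M (S : Set k) h) :
    ∀ w ∈ S, h.eval w ∈ S := by
  induction hh with
  | id => intro w hw; rwa [eval_X]
  | @comp h m c _ _ _ hc ih =>
    intro w hw
    rw [eval_comp]
    apply ih
    rw [eval_add, eval_pow, eval_X, eval_C]
    exact S.add_mem (S.pow_mem hw m) hc

/-- Irreducibility of `f(h)` for all composites `h`. -/
theorem irr_composite {S : Subring k} {f : k[X]} (hfm : f.Monic) (hfi : Irreducible f)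
    (hN : ∀ ℓ : ℕ, ℓ.Prime → ℓ ∈ M → ∀ w ∈ S, ∀ z : k, z ^ ℓ ≠ f.eval w) {h : k[X]}
    (hh : IsComposite M (S : Set k) h) : Irreducible (f.comp h) := by
  induction hh with
  | id => rwa [comp_X]
  | @comp h m c hh hm hM hc ih =>
    rw [← comp_assoc]
    refine irr_step (hfm.comp hh.monic.1 hh.monic.2) ih hm c ?_
    intro ℓ hℓ hℓm z
    rw [eval_comp]
    exact hN ℓ hℓ (hM ℓ hℓ hℓm) _ (hh.maps c hc) z

end comp

end Pool.Agent.R915.It
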